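import Mathlib
import Pool.Agent.Helper288.PQ.Seq

set_option autoImplicit false

namespace Pool.Agent.Results.MP_d8e360_co.SubpolyBound

/-- `c` is a `(p, q)`-colouring of the complete `k`-uniform hypergraph on `n` vertices with `m`
colours: among the `k`-subsets of any `p`-set at least `q` colours occur. (Only the values of `c`
on the `k`-subsets matter.) -/
def IsColouring (k p q : ℕ) {n m : ℕ} (c : Finset (Fin n) → Fin m) : Prop :=
  ∀ S : Finset (Fin n), S.card = p → q ≤ ((S.powersetCard k).image c).card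

/-- `f_k(n, p, q)`: the least number of colours of a `(p, q)`-colouring. -/
noncomputable def f (k n p q : ℕ) : ℕ :=
  sInf {m : ℕ | ∃ c : Finset (Fin n) → Fin m, IsColouring k p q c}

lemma mul_bd {a b u v : ℝ} (_ha : 0 ≤ a) (hb : 0 ≤ b) (h1 : a ≤ 2 ^ u) (h2 : b ≤ 2 ^ v) :
    a * b ≤ 2 ^ (u + v) := by
  rw [Real.rpow_add (by norm_num)]
  exact mul_le_mul h1 h2 hb (by positivity)

lemma pow_bd {a u : ℝ} (ha : 0 ≤ a) (h1 : a ≤ 2 ^ u) (k : ℕ) : a ^ k ≤ 2 ^ (k * u) := by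
  have h2 : (2 : ℝ) ^ ((k : ℝ) * u) = ((2 : ℝ) ^ u) ^ k := by
    rw [mul_comm, Real.rpow_mul (by norm_num), Real.rpow_natCast]
  rw [h2]
  exact pow_le_pow_left₀ ha h1 k

lemma exists_colouring (e n : ℕ) (hn : 2 ≤ n) :
    ∃ m : ℕ, (m : ℝ) ≤ 2 ^ ((4 * ((e : ℝ) + 1) + ((e : ℝ) + 3) * (((e : ℝ) + 1) ^ 2 + 2 * e)) *
        (Real.logb 2 n) ^ (1 / ((e + 1 : ℕ) : ℝ))) ∧
      ∃ c : Finset (Fin n) → Fin m, IsColouring (2 * e + 1) (2 * e + 2) (e + 2) c := by
  classical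
  -- the parameters
  obtain ⟨l, hl⟩ : ∃ l, l = Nat.clog 2 n := ⟨_, rfl⟩
  have hnl : n ≤ 2 ^ l := by rw [hl]; exact Nat.le_pow_clog (by norm_num) n
  have hl1 : 1 ≤ l := by rw [hl]; exact Nat.clog_pos (by norm_num) hn
  have hln : 2 ^ (l - 1) < n := by
    rw [hl]
    exact Nat.pow_pred_clog_lt_self (by norm_num) hn
  obtain ⟨L, hL⟩ : ∃ L : ℝ, L = Real.logb 2 n := ⟨_, rfl⟩
  have hn0 : (0 : ℝ) < n := by positivity
  have hL1 : 1 ≤ L := by
    rw [hL, Real.le_logb_iff_rpow_le (by norm_num) hn0, Real.rpow_one]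
    exact_mod_cast hn
  have hlL : (l : ℝ) ≤ L + 1 := by
    have h1 : ((l : ℝ) - 1) ≤ L := by
      rw [hL, Real.le_logb_iff_rpow_le (by norm_num) hn0]
      have h2 : ((l : ℝ) - 1) = ((l - 1 : ℕ) : ℝ) := by
        rw [Nat.cast_sub hl1]; simp
      rw [h2, Real.rpow_natCast]
      exact_mod_cast hln.le
    linarith
  rw [← hL]
  have hd : ((e + 1 : ℕ) : ℝ) ≠ 0 := by positivity
  obtain ⟨X, hX⟩ : ∃ X : ℝ, X = L ^ (1 / ((e + 1 : ℕ) : ℝ)) := ⟨_, rfl⟩
  have hX1 : 1 ≤ X := by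
    rw [hX]
    exact Real.one_le_rpow hL1 (by positivity)
  have hXL : X ^ (e + 1) = L := by
    rw [hX, ← Real.rpow_natCast, ← Real.rpow_mul (by linarith), one_div_mul_cancel hd,
      Real.rpow_one]
  rw [← hX]
  -- P
  obtain ⟨P, hP⟩ : ∃ P, P = ⌈2 * X⌉₊ := ⟨_, rfl⟩
  have hP1 : 2 * X ≤ P := by rw [hP]; exact Nat.le_ceil _
  have hP2 : (P : ℝ) ≤ 3 * X := by
    have := Nat.ceil_lt_add_one (a := 2 * X) (by linarith)
    rw [← hP] at this
    linarith
  have hPl : l ≤ P ^ (e + 1) := by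
    have h1 : (l : ℝ) ≤ (P : ℝ) ^ (e + 1) := by
      have h2 : (2 * X) ^ (e + 1) ≤ (P : ℝ) ^ (e + 1) :=
        pow_le_pow_left₀ (by linarith) hP1 _
      have h3 : (2 * X) ^ (e + 1) = 2 ^ (e + 1) * L := by rw [mul_pow, hXL]
      have h4 : (2 : ℝ) ≤ 2 ^ (e + 1) := by
        calc (2 : ℝ) = 2 ^ 1 := by norm_num
          _ ≤ 2 ^ (e + 1) := pow_le_pow_right₀ (by norm_num) (by omega)
      nlinarith
    exact_mod_cast h1
  -- q
  obtain ⟨q, hq, hq1, hq2⟩ := Nat.exists_prime_lt_and_le_two_mul (2 ^ P * (l + 1) ^ (e + 1))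
    (by positivity)
  have h2P : 2 ^ P ≤ q := by
    refine le_trans ?_ hq1.le
    exact Nat.le_mul_of_pos_right _ (by positivity)
  have hKq : (l + 1) ^ (e + 1) ≤ q := by
    refine le_trans ?_ hq1.le
    exact Nat.le_mul_of_pos_left _ (by positivity)
  have hlq : 2 ^ l ≤ q ^ ((P + 1) ^ e) := by
    calc 2 ^ l ≤ 2 ^ (P ^ (e + 1)) := Nat.pow_le_pow_right (by norm_num) hPl
      _ ≤ 2 ^ (P * (P + 1) ^ e) := by
          apply Nat.pow_le_pow_right (by norm_num)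
          rw [pow_succ, mul_comm]
          exact Nat.mul_le_mul_left _ (Nat.pow_le_pow_left (by omega) e)
      _ = (2 ^ P) ^ ((P + 1) ^ e) := by rw [pow_mul]
      _ ≤ q ^ ((P + 1) ^ e) := Nat.pow_le_pow_left h2P _
  obtain ⟨χ, hχ⟩ := Pool.Agent.Helper288.PQ.colouring n e P l q hnl hq h2P hKq hlq
  let K := (Fin (2 * e) → Fin (l + 1)) × (Fin (e + 1) → Fin q)
  have hcard : Fintype.card K = (l + 1) ^ (2 * e) * q ^ (e + 1) := by
    simp only [K, Fintype.card_prod, Fintype.card_fun, Fintype.card_fin]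
  refine ⟨Fintype.card K, ?_, fun T => Fintype.equivFin K (χ T), ?_⟩
  · -- the count
    rw [hcard]
    push_cast
    have hl3 : (l : ℝ) + 1 ≤ 2 ^ (((e : ℝ) + 3) * X) := by
      have h1 : (l : ℝ) + 1 ≤ 4 * L := by linarith
      have h2 : X ≤ 2 ^ X := by
        have hn2 := one_add_mul_self_le_rpow_one_add (s := 1) (by norm_num) hX1
        norm_num at hn2
        linarith
      have h3 : L ≤ 2 ^ (((e + 1 : ℕ) : ℝ) * X) := by
        rw [← hXL]
        exact pow_bd (by linarith) h2 (e + 1)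
      have h4 : (4 : ℝ) ≤ 2 ^ (2 * X) := by
        calc (4 : ℝ) = 2 ^ (2 : ℝ) := by norm_num
          _ ≤ 2 ^ (2 * X) := Real.rpow_le_rpow_of_exponent_le (by norm_num) (by linarith)
      refine h1.trans ((mul_bd (by norm_num) (by linarith) h4 h3).trans (le_of_eq ?_))
      congr 1
      push_cast
      ring
    have hPb : (2 : ℝ) ^ P ≤ 2 ^ (3 * X) := by
      rw [← Real.rpow_natCast]
      exact Real.rpow_le_rpow_of_exponent_le (by norm_num) hP2
    have hqb : (q : ℝ) ≤ 2 ^ (X + (3 * X + ((e + 1 : ℕ) : ℝ) * (((e : ℝ) + 3) * X))) := by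
      have h1 : (q : ℝ) ≤ 2 * (2 ^ P * ((l : ℝ) + 1) ^ (e + 1)) := by exact_mod_cast hq2
      refine h1.trans ?_
      refine mul_bd (by norm_num) (by positivity) ?_ ?_
      · calc (2 : ℝ) = 2 ^ (1 : ℝ) := by norm_num
          _ ≤ 2 ^ X := Real.rpow_le_rpow_of_exponent_le (by norm_num) hX1
      · exact mul_bd (by positivity) (by positivity) hPb (pow_bd (by positivity) hl3 (e + 1))
    have h1 := mul_bd (by positivity) (by positivity) (pow_bd (by positivity) hl3 (2 * e))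
      (pow_bd (by positivity) hqb (e + 1))
    refine h1.trans (le_of_eq ?_)
    congr 1
    push_cast
    ring
  · intro S hS
    have h1 := hχ S hS
    have h2 : ((S.powersetCard (2 * e + 1)).image (fun T => Fintype.equivFin K (χ T))).card =
        ((S.powersetCard (2 * e + 1)).image χ).card := by
      have h3 : (S.powersetCard (2 * e + 1)).image (fun T => Fintype.equivFin K (χ T)) =
          ((S.powersetCard (2 * e + 1)).image χ).image (Fintype.equivFin K) := by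
        rw [Finset.image_image]
        rfl
      rw [h3]
      exact Finset.card_image_of_injective _ (Fintype.equivFin K).injective
    rw [h2]
    exact h1

/-- For every `d ≥ 1` there is a constant `C` such that
`f_{2d-1}(n, 2d, d+1) ≤ 2 ^ (C (log n)^{1/d})` for all `n ≥ 2` (and colourings exist at all). -/
theorem result : ∀ d : ℕ, 1 ≤ d → ∃ C : ℝ, 0 < C ∧ ∀ n : ℕ, 2 ≤ n →
    (∃ m : ℕ, ∃ c : Finset (Fin n) → Fin m, IsColouring (2 * d - 1) (2 * d) (d + 1) c) ∧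
    (f (2 * d - 1) n (2 * d) (d + 1) : ℝ) ≤ 2 ^ (C * (Real.logb 2 n) ^ (1 / (d : ℝ))) := by
  intro d hd
  obtain ⟨e, rfl⟩ : ∃ e, d = e + 1 := ⟨d - 1, by omega⟩
  refine ⟨4 * ((e : ℝ) + 1) + ((e : ℝ) + 3) * (((e : ℝ) + 1) ^ 2 + 2 * e), by positivity, ?_⟩
  intro n hn
  obtain ⟨m, hm, c, hc⟩ := exists_colouring e n hn
  have e1 : 2 * (e + 1) - 1 = 2 * e + 1 := by omega
  have e2 : 2 * (e + 1) = 2 * e + 2 := by omega
  have e3 : e + 1 + 1 = e + 2 := by omega
  rw [e1, e2, e3]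
  refine ⟨⟨m, c, hc⟩, le_trans ?_ hm⟩
  have : f (2 * e + 1) n (2 * e + 2) (e + 2) ≤ m := Nat.sInf_le ⟨c, hc⟩
  exact_mod_cast this

end Pool.Agent.Results.MP_d8e360_co.SubpolyBound
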